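import Pool.Agent.X51.Golod.Mono

/-!
# A product of two Golod ideals which is not Golod

`S = K[x_1, …, x_4]`, `𝔪 = (x_1, …, x_4)`, `I = 𝔪^2` and
`J = 𝔪^3 (x_1^6, …, x_4^6) + ((x_1 x_2 x_3 x_4)^5)`: `S / I` and `S / J` are Golod, `S / IJ` is not.
-/

set_option autoImplicit false

namespace Pool.Agent.Results.MP_6756f0_al.ProductOfGolodIdeals

open MvPolynomial Pool.Agent.X51.Golod

variable {K : Type} [Field K]

/-- the product ideal -/
noncomputable abbrev LL (K : Type) [Field K] : Ideal (MvPolynomial (Fin 4) K) :=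
  idealOfVars (Fin 4) K ^ 2 * JJ K

/-- divisible by some `x_i^6` or of degree at least 22 -/
def PL (d : Fin 4 → ℕ) : Prop := (∃ i, 6 ≤ d i) ∨ 22 ≤ ∑ i, d i

lemma PL_up (d e : Fin 4 →₀ ℕ) (h : PL ⇑d) : PL ⇑(e + d) := by
  rcases h with ⟨i, h⟩ | h
  · refine Or.inl ⟨i, ?_⟩
    simp only [Finsupp.coe_add, Pi.add_apply]
    omega
  · refine Or.inr ?_
    simp only [Finsupp.coe_add, Pi.add_apply, Finset.sum_add_distrib]
    omega

lemma LL_le : LL K ≤ monoIdeal K PL PL_up := by
  classical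
  rw [Ideal.mul_le]
  intro r hr s hs d hd
  obtain ⟨e, he, f, hf, rfl⟩ := Finset.mem_add.mp (MvPolynomial.support_mul r s hd)
  have h1 := (mem_pow_idealOfVars_iff 2 r).mp hr e he
  rw [degree_sum] at h1
  rcases hs f hf with ⟨-, i, h2⟩ | h2
  · refine Or.inl ⟨i, ?_⟩
    simp only [Finsupp.coe_add, Pi.add_apply]
    omega
  · refine Or.inr ?_
    simp only [Finsupp.coe_add, Pi.add_apply, Finset.sum_add_distrib]
    have h3 : 20 ≤ ∑ i, f i := by
      rw [Fin.sum_univ_four]
      have k0 := h2 0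
      have k1 := h2 1
      have k2 := h2 2
      have k3 := h2 3
      omega
    omega

/-- `(x_1 x_2 x_3 x_4)^5` is not in the product -/
lemma top_notMem : (X 0 ^ 5 * X 1 ^ 5 * (X 2 ^ 5 * X 3 ^ 5) : MvPolynomial (Fin 4) K) ∉ LL K := by
  classical
  intro h
  have h1 := LL_le h
  set e : Fin 4 →₀ ℕ := Finsupp.single 0 5 + Finsupp.single 1 5 +
    (Finsupp.single 2 5 + Finsupp.single 3 5) with he
  have h2 : (X 0 ^ 5 * X 1 ^ 5 * (X 2 ^ 5 * X 3 ^ 5) : MvPolynomial (Fin 4) K) =
      monomial e 1 := by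
    simp only [X_pow_eq_monomial, monomial_mul, mul_one, he]
  rw [h2] at h1
  have h3 := h1 e (by rw [support_monomial, if_neg one_ne_zero]; exact Finset.mem_singleton_self _)
  have h5 : ∀ i, e i = 5 := by
    intro i
    rw [he]
    fin_cases i <;> simp
  rcases h3 with ⟨i, h4⟩ | h4
  · rw [h5 i] at h4
    omega
  · simp only [h5] at h4
    simp at h4

lemma mem_LL {i j : Fin 4} (hij : i ≠ j) : (X i ^ 6 * X j ^ 5 : MvPolynomial (Fin 4) K) ∈ LL K := by
  classical
  have h1 : (X i ^ 6 * X j ^ 5 : MvPolynomial (Fin 4) K) = X j ^ 2 * (X i ^ 6 * X j ^ 3) := by ring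
  rw [h1]
  refine Ideal.mul_mem_mul (Ideal.pow_mem_pow (Ideal.subset_span (Set.mem_range_self j)) 2) ?_
  have h2 : (X i ^ 6 * X j ^ 3 : MvPolynomial (Fin 4) K) =
      monomial (Finsupp.single i 6 + Finsupp.single j 3) 1 := by
    rw [X_pow_eq_monomial, X_pow_eq_monomial, monomial_mul, mul_one]
  rw [h2]
  intro d hd
  rw [support_monomial, if_neg one_ne_zero, Finset.mem_singleton] at hd
  subst hd
  refine Or.inl ⟨?_, i, ?_⟩
  · rw [← degree_sum, map_add, Finsupp.degree_single, Finsupp.degree_single]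
  · simp

/-- the cycle `x_i^5 x_j^5 e_i e_j` -/
noncomputable def cyc (K : Type) [Field K] (i j : Fin 4) (T : Finset (Fin 4)) :
    MvPolynomial (Fin 4) K ⧸ LL K :=
  if T = {i, j} then Ideal.Quotient.mk (LL K) (X i ^ 5 * X j ^ 5) else 0

lemma cyc_hom {i j : Fin 4} (hij : i ≠ j) : Hom (1 + 1) (cyc K i j) := by
  intro T hT
  unfold cyc
  rw [if_neg]
  rintro rfl
  exact hT (Finset.card_pair hij)

lemma cyc_bd {i j : Fin 4} (hij : i ≠ j) : bd (xb (LL K)) (cyc K i j) = 0 := by
  classical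
  funext T
  unfold bd
  refine Finset.sum_eq_zero fun v _ => ?_
  unfold cyc
  split_ifs with h
  · have hv : v = i ∨ v = j := by
      have : v ∈ ({i, j} : Finset (Fin 4)) := h ▸ Finset.mem_insert_self v T
      simpa using this
    have h0 : (xb (LL K) v * Ideal.Quotient.mk (LL K) (X i ^ 5 * X j ^ 5) : _ ⧸ LL K) = 0 := by
      rw [← map_mul, Ideal.Quotient.eq_zero_iff_mem]
      rcases hv with rfl | rfl
      · have := mem_LL (K := K) hij
        convert this using 1
        ring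
      · have := mem_LL (K := K) hij.symm
        convert this using 1
        ring
    rw [h0, mul_zero]
  · rw [mul_zero, mul_zero]

lemma not_golod : ¬ IsGolod K (xb (LL K)) := by
  classical
  intro h
  have h1 := golod_top h (cyc_hom (K := K) (i := 0) (j := 1) (by decide)) (cyc_bd (by decide))
    (cyc_hom (K := K) (i := 2) (j := 3) (by decide)) (cyc_bd (by decide))
  unfold mul at h1
  rw [Finset.sum_eq_single ({0, 1} : Finset (Fin 4))] at h1
  · have h2 : (Finset.univ : Finset (Fin 4)) \ {0, 1} = {2, 3} := by decide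
    have h3 : (((({0, 1} : Finset (Fin 4)) ×ˢ {2, 3}).filter
        (fun p : Fin 4 × Fin 4 => p.2 < p.1)).card) = 0 := by decide
    rw [h2, h3, pow_zero, one_mul] at h1
    unfold cyc at h1
    rw [if_pos rfl, if_pos rfl, ← map_mul, Ideal.Quotient.eq_zero_iff_mem] at h1
    exact top_notMem h1
  · intro A _ hA
    have : cyc K 0 1 A = 0 := if_neg hA
    rw [this, zero_mul, mul_zero]
  · intro hA
    exact absurd (Finset.mem_powerset.mpr (Finset.subset_univ _)) hA

/-- For every field `K` there is a homogeneous ideal `J` of `S = K[x_1, …, x_4]`, spanned by the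
monomials which are of degree at least nine and divisible by some `x_i^6`, or divisible by
`(x_1 x_2 x_3 x_4)^5`, such that `S / 𝔪^2` and `S / J` are Golod but `S / 𝔪^2 J` is not. -/
theorem result (K : Type) [Field K] : ∃ J : Ideal (MvPolynomial (Fin 4) K),
    (∀ p, p ∈ J ↔ ∀ d ∈ p.support, (9 ≤ ∑ i, d i ∧ ∃ i, 6 ≤ d i) ∨ ∀ i, 5 ≤ d i) ∧
    (∀ p ∈ J, ∀ c, homogeneousComponent c p ∈ J) ∧
    J ≤ idealOfVars (Fin 4) K ^ 2 ∧
    IsGolod K (fun j => Ideal.Quotient.mk (idealOfVars (Fin 4) K ^ 2) (X j)) ∧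
    IsGolod K (fun j => Ideal.Quotient.mk J (X j)) ∧
    ¬ IsGolod K (fun j => Ideal.Quotient.mk (idealOfVars (Fin 4) K ^ 2 * J) (X j)) :=
  ⟨JJ K, fun _ => mem_monoIdeal, fun _ hp c => JJ_hom hp c,
    JJ_le_pow.trans (Ideal.pow_le_pow_right (by norm_num)),
    golod_low _ 2 le_rfl le_rfl, golod_JJ, not_golod⟩

end Pool.Agent.Results.MP_6756f0_al.ProductOfGolodIdeals
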